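import Mathlib
import Pool.Agent.H.MP_023270_nt.Count

set_option autoImplicit false

namespace Pool.Agent.Results.MP_023270_nt.NotAlmostAllReal

open Filter Topology Pool.Agent.H.MP_023270_nt
open scoped ENNReal

theorem result : ∃ lam : ℝ, lam < 0 ∧ Differentiable ℂ (Xi lam) ∧
    (∃ θ : ℝ≥0∞, θ < 1 ∧ ∀ᶠ T : ℝ in atTop,
      zeroCount (Xi lam) {z | ‖z‖ ≤ T} ≠ 0 ∧ zeroCount (Xi lam) {z | ‖z‖ ≤ T} ≠ ⊤ ∧
      zeroCount (Xi lam) {z | z.im = 0 ∧ ‖z‖ ≤ T} ≤ θ * zeroCount (Xi lam) {z | ‖z‖ ≤ T}) ∧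
    ¬ Tendsto (fun T : ℝ => zeroCount (Xi lam) {z | z.im = 0 ∧ ‖z‖ ≤ T} /
      zeroCount (Xi lam) {z | |z.re| ≤ T}) atTop (𝓝 1) := by
  have hθ : ENNReal.ofReal (1 - 1 / 2 ^ 94) < 1 := ENNReal.ofReal_lt_one.mpr (by norm_num)
  refine ⟨-1 / 2, by norm_num, ff_diff, ⟨_, hθ, main⟩, fun h => ?_⟩
  refine absurd (le_of_tendsto h ?_) (not_le.mpr hθ)
  filter_upwards [main] with T hT
  refine ENNReal.div_le_of_le_mul (hT.2.2.trans ?_)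
  gcongr
  rw [count_eq, count_eq]
  exact nu_mono _ fun z hz => (Complex.abs_re_le_norm z).trans hz

end Pool.Agent.Results.MP_023270_nt.NotAlmostAllReal
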